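import Pool.Agent.Q128.LadderTree6

/-!
# Player 1 wins the edge-distinguishing game on the triangular ladder `T_10`

The definitions are in `Pool.Agent.Q128.LadderDefs`: `ladder n` is the triangular ladder, `Distinguishing`
says that a partial colouring is edge-distinguishing, `edgeDistinguishingNumber` is `λ(G)`, `Move` is a
legal move, `Wins` says that the player to move has a winning strategy.
-/

set_option autoImplicit false

namespace Pool.Agent.Results.MP_08a4a0_co.LadderTen

open Q128.Ladder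

/-- Player 2 has a winning strategy in the game on `G` with `λ(G)` colours: after every first move the
player to move wins. -/
def PlayerTwoWins {V : Type} [DecidableEq V] (G : SimpleGraph V) : Prop :=
  ∀ c : V → Option (Fin (edgeDistinguishingNumber G)), Move G (fun _ => none) c → Wins G c

theorem not_both {V : Type} [DecidableEq V] {G : SimpleGraph V} {k : ℕ} {c : V → Option (Fin k)}
    (h : Wins G c) : ¬ ∀ c', Move G c c' → Wins G c' := by
  induction h with
  | intro c c' h h' ih =>
    intro hall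
    have h1 := hall c' h
    cases h1 with
    | intro _ d hd hd' => exact ih d hd hd'

instance : DecidableRel fun u v : Fin 10 => u ≠ v ∧ ((u.val + 1 = v.val ∨ u.val + 2 = v.val) ∨
    (v.val + 1 = u.val ∨ v.val + 2 = u.val)) := fun _ _ => inferInstance

theorem card_darts : Fintype.card {p : Fin 10 × Fin 10 // p.1 ≠ p.2 ∧
    ((p.1.val + 1 = p.2.val ∨ p.1.val + 2 = p.2.val) ∨
      (p.2.val + 1 = p.1.val ∨ p.2.val + 2 = p.1.val))} = 34 := by
  decide +kernel

theorem common : ∀ u v : Fin 10, (u ≠ v ∧ ((u.val + 1 = v.val ∨ u.val + 2 = v.val) ∨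
    (v.val + 1 = u.val ∨ v.val + 2 = u.val))) → ∃ w : Fin 10,
    (u ≠ w ∧ ((u.val + 1 = w.val ∨ u.val + 2 = w.val) ∨ (w.val + 1 = u.val ∨ w.val + 2 = u.val))) ∧
    (v ≠ w ∧ ((v.val + 1 = w.val ∨ v.val + 2 = w.val) ∨ (w.val + 1 = v.val ∨ w.val + 2 = v.val))) := by
  decide +kernel

theorem seven_le {k : ℕ} (c : Fin 10 → Fin k)
    (h : Distinguishing (ladder 10) (fun v => some (c v))) : 7 ≤ k := by
  -- the ends of an edge have different colours
  have hne : ∀ u v : Fin 10, (ladder 10).Adj u v → c u ≠ c v := by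
    intro u v huv he
    obtain ⟨w, hw1, hw2⟩ := common u v huv
    have h1 := h u w v w hw1 hw2 (c u) (c w) (c v) (c w) rfl rfl rfl rfl (by rw [he])
    rw [Sym2.eq_iff] at h1
    rcases h1 with ⟨h1, -⟩ | ⟨h1, -⟩
    · exact huv.1 h1
    · exact hw1.1 h1
  let f : {p : Fin 10 × Fin 10 // p.1 ≠ p.2 ∧
      ((p.1.val + 1 = p.2.val ∨ p.1.val + 2 = p.2.val) ∨
      (p.2.val + 1 = p.1.val ∨ p.2.val + 2 = p.1.val))} → {q : Fin k × Fin k // q.1 ≠ q.2} :=
    fun p => ⟨(c p.1.1, c p.1.2), hne _ _ p.2⟩
  have hf : Function.Injective f := by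
    rintro ⟨⟨u, v⟩, hp⟩ ⟨⟨u', v'⟩, hp'⟩ he
    have he' : (c u, c v) = (c u', c v') := congrArg Subtype.val he
    rw [Prod.mk.injEq] at he'
    have h1 := h u v u' v' hp hp' (c u) (c v) (c u') (c v') rfl rfl rfl rfl
      (by rw [he'.1, he'.2])
    rw [Sym2.eq_iff] at h1
    rcases h1 with ⟨h1, h2⟩ | ⟨h1, h2⟩
    · subst h1; subst h2; rfl
    · exfalso
      apply hne _ _ hp
      rw [he'.1, h2]
  have hcard := Fintype.card_le_of_injective f hf
  rw [card_darts] at hcard
  have h2 : Fintype.card {q : Fin k × Fin k // q.1 ≠ q.2} = k * k - k := by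
    have h3 := Fintype.card_subtype_compl (fun q : Fin k × Fin k => q.1 = q.2)
    have h4 : Fintype.card {q : Fin k × Fin k // q.1 = q.2} = k := by
      rw [Fintype.card_congr (⟨fun q => q.1.1, fun a => ⟨(a, a), rfl⟩, fun q => by
        obtain ⟨⟨a, b⟩, hab⟩ := q
        exact Subtype.ext (Prod.ext rfl hab), fun a => rfl⟩ : {q : Fin k × Fin k // q.1 = q.2} ≃ Fin k), Fintype.card_fin]
    rw [h4, Fintype.card_prod, Fintype.card_fin] at h3
    exact h3
  rw [h2] at hcard
  by_contra hk
  have : k ≤ 6 := by omega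
  interval_cases k <;> omega

theorem lambda_eq : edgeDistinguishingNumber (ladder 10) = 7 := by
  have hmem : ∃ c : Fin 10 → Fin 7, Distinguishing (ladder 10) (fun v => some (c v)) := by
    refine ⟨![0, 1, 2, 3, 4, 0, 5, 6, 1, 4], dist_of_valid ?_⟩
    decide +kernel
  apply le_antisymm
  · exact Nat.sInf_le hmem
  · obtain ⟨c, hc⟩ := Nat.sInf_mem (s := {k | ∃ c : Fin 10 → Fin k,
      Distinguishing (ladder 10) (fun v => some (c v))}) ⟨7, hmem⟩
    exact seven_le c hc

theorem wins_ten : Wins (ladder 10) (fun _ => none : Fin 10 → Option (Fin 7)) := by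
  have henc : enc (Function.update (fun _ => none : Fin 10 → Option (Fin 7)) 0 (some 0)) =
      [1, 0, 0, 0, 0, 0, 0, 0, 0, 0] := by decide +kernel
  refine Wins.intro _ (Function.update (fun _ => none) 0 (some 0))
    ⟨⟨0, rfl, 0, rfl⟩, dist_of_valid ?_⟩ (n881 _ henc)
  rw [henc]
  decide +kernel

/-- Player 1 has a winning strategy in the edge-distinguishing game on `T_10`, so Player 2 does not have
one on `T_n` for every `n ≥ 4`. -/
theorem result : edgeDistinguishingNumber (ladder 10) = 7 ∧ PlayerOneWins (ladder 10) ∧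
    ¬ ∀ n : ℕ, 4 ≤ n → PlayerTwoWins (ladder n) := by
  have h1 : PlayerOneWins (ladder 10) := by
    unfold PlayerOneWins
    rw [lambda_eq]
    exact wins_ten
  exact ⟨lambda_eq, h1, fun h => not_both h1 (h 10 (by norm_num))⟩

end Pool.Agent.Results.MP_08a4a0_co.LadderTen
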